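import Pool.Agent.X312.CQ.Fold

/-!
# A gap law for the cycles which restrict to zero on all `i`-folds

Let `Y` be **any** smooth projective variety over `ℂ`, and let `X` be a smooth projective variety
over `ℂ` such that the numerically trivial self-correspondences of its powers are nilpotent modulo
rational equivalence and homological and numerical equivalence agree on its powers (abelian
varieties, products of curves). Let `M = (X ^ m, e)` be a direct summand of the Chow motive of `X
^ m` which is irreducible modulo homological equivalence, and let `D = dim H(M)` be its rank. Let
`ρ(Z)` be the rank of the cycles of all codimensions on `Z` modulo numerical equivalence, and `b`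
the sum of the Betti numbers of `X`. We say that a cycle of codimension `i` is undetected if it
restricts to zero on all `i`-folds, and that a cycle of mixed codimension is undetected if its
components are.

**Nori's conjecture is true for** `Y ⊗ M`, **that is, all undetected cycles on** `Y ⊗ M` **are
zero** (with rational coefficients, modulo rational equivalence), **or for all** `n ≥ 1` **at
least**

`(D - 4 (m + 3) b ^ (m + 5) log (n + 1) / n) ρ(X ^ n)`

**undetected cycles on** `Y × X ^ n` **are linearly independent.** So if Nori's conjecture is
false for one variety `Y × X ^ m` then it is false for `Y × X ^ n` for all large `n`, in a very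
strong way.

The basic remark is that correspondences respect the undetected cycles. Let `w` be a cycle of
codimension `i` on `Y × Z`, `a` a cycle of codimension `c` on `Z × Z'`, and `g : V → Y × Z'` a
morphism, with `V` smooth and projective of dimension `i' = i + c - dim Z`. The pull-back of `a`
to `V × Z` is a combination of subvarieties `T_k` of dimension `i`, and by base change for the
projection `V × Z → V` the restriction of `a_* w` to `V` is the same combination of the
push-forwards to `V` of the restrictions of `w` to (resolutions of) the `T_k`. Finally, if `w`
restricts to zero on all `i`-folds in `Y × Z`, then it restricts to zero for all morphisms from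
smooth projective varieties of dimension `i` to `Y × Z`, as a morphism which is not generically
finite factors through a variety of smaller dimension, and one which is generically finite
factors, birationally, through a resolution of its image.

The proof. Let `T(Z)` be the space of the undetected cycles on `Y × Z`; correspondences act on it.
Let `P = X ^ m`, and let `z = e z ≠ 0` be an element of `T(P)`. If `x` is a correspondence with `x
z = 0` then `e x e` is nilpotent, as otherwise some multiple of it would be an idempotent, equal
to `e` by irreducibility and by the lifting of idempotents, and would not kill `z`. So the trace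
of `e x` vanishes, and `dim T(Z)` is at least the rank of the trace form `(u, v) ↦ tr (e v u)` on
the correspondences between `P` and `Z`. For `Z = X ^ n` this rank is at least `(D - ε) ρ(X ^ n)`,
by the log-convexity of the sequence of the ranks `ρ(X ^ (2 l))`, by tensor powers, and by the
symmetric group, which excludes small growth. For the other parity `M` is cut out of `X ^ (m +
1)`.
-/

set_option autoImplicit false

open CategoryTheory AlgebraicGeometry

universe u v w

namespace Pool.Agent.Results.MP_c78f90_ag.DetectionGapLaw

open Pool.Agent.H914 VarClass Obj WeilCohomology
open Pool.Agent.X312.FK (ChowData ChowModule IsAlgClass IrreducibleIn RankGE IndepMod)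
open Pool.Agent.X312.CQ (FoldData)
open Pool.Agent.X312.FC (rankBound)
open Pool.Agent.Y133.Half (cycRank pw)

variable {k : Type u} [Field k] {𝒱 : VarClass k} {ops : CycleOps 𝒱}
  {W : WeilCohomology.{u, v} ops}

/-- The sum of the Betti numbers of `X`. -/
noncomputable def totalBetti (W : WeilCohomology.{u, v} ops) (X : 𝒱.Obj) : ℕ :=
  Module.finrank W.K (W.H X)

/-- **The gap law for undetected cycles.** In the intended use `C` is the category of Chow
correspondences between the powers of `X`, `T.M Z` is the Chow group of `Y × Z`, the folds in
`F.Fold Z` are the morphisms `V → Y × Z` with `V` smooth and projective, `F.ker Z f` is the space of the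
cycles whose component of codimension `dim V` restricts to zero in `CH_0(V)`, and `e` is the projector
of the motive `M`. Here `pw X m` is the product of `m + 1` copies of `X`. -/
theorem result (C : ChowData W) (hC : C.IsChow) (T : ChowModule C) (hT : T.IsFunctor)
    (F : FoldData T) (hF : F.HasBaseChange) (X : 𝒱.Obj)
    (hX : ∀ n : ℕ, C.NumNil (pw X n)) (hX' : ∀ n : ℕ, HomEqNum W (pw X n))
    (m : ℕ) (e : C.A (pw X m) (pw X m)) (he : C.comp e e = e)
    (hirr : IrreducibleIn IsAlgClass (C.cl e)) (D : ℕ) (hrk : RankGE (C.cl e) D) :
    (∀ x : T.M (pw X m), F.Undetected x → T.act e x = 0) ∨
    ∀ n : ℕ, IndepMod {x : T.M (pw X n) | F.Undetected x} (⊥ : Submodule W.K (T.M (pw X n)))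
      (rankBound D (totalBetti W X) (cycRank ops (pw X n)) m n) :=
  Pool.Agent.X312.CQ.detection_law hC hT F hF X hX hX' e he hirr hrk

end Pool.Agent.Results.MP_c78f90_ag.DetectionGapLaw
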